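import Mathlib

set_option autoImplicit false

open scoped ENNReal

namespace Pool.Agent.Results.MP_6d1e65_an.TauMStrongest

/-- A distance distribution function: an element of the set `Delta^+`. -/
@[ext]
structure DDF where
  /-- the underlying function on `[0, infinity]` -/
  toFun : ℝ≥0∞ → ℝ
  mono' : Monotone toFun
  nonneg' : ∀ x, 0 ≤ toFun x
  le_one' : ∀ x, toFun x ≤ 1
  leftCont' : ∀ x, 0 < x → x < ∞ → ContinuousWithinAt toFun (Set.Iio x) x
  zero' : toFun 0 = 0
  top' : toFun ∞ = 1

instance : CoeFun DDF (fun _ => ℝ≥0∞ → ℝ) := ⟨DDF.toFun⟩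

/-- Pointwise order on `Delta^+`. -/
instance : LE DDF := ⟨fun F G => ∀ x, F x ≤ G x⟩

theorem DDF.le_def {F G : DDF} : F ≤ G ↔ ∀ x, F x ≤ G x := Iff.rfl

/-- `eps_0`: equals `0` at `0` and `1` on `(0, infinity]`. -/
noncomputable def epsZero : DDF where
  toFun := fun x => if x = 0 then 0 else 1
  mono' := by
    intro x y h
    by_cases hx : x = 0
    · simp only [hx, if_true]; split_ifs <;> norm_num
    · have hy : y ≠ 0 := by
        rintro rfl
        exact hx (nonpos_iff_eq_zero.mp h)
      simp [hx, hy]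
  nonneg' := by intro x; split_ifs <;> norm_num
  le_one' := by intro x; split_ifs <;> norm_num
  leftCont' := by
    intro x hx _
    have h1 : (fun y : ℝ≥0∞ => if y = 0 then (0 : ℝ) else 1) =ᶠ[nhdsWithin x (Set.Iio x)] fun _ => 1 := by
      filter_upwards [mem_nhdsWithin_of_mem_nhds (lt_mem_nhds hx)] with y hy
      simp [hy.ne']
    exact (tendsto_const_nhds.congr' h1.symm).trans (by simp [hx.ne'])
  zero' := by simp
  top' := by simp

/-- `eps_infinity`: equals `0` on `[0, infinity)` and `1` at `infinity`. -/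
noncomputable def epsTop : DDF where
  toFun := fun x => if x = ∞ then 1 else 0
  mono' := by
    intro x y h
    by_cases hx : x = ∞
    · have hy : y = ∞ := by rw [hx] at h; exact top_le_iff.mp h
      simp [hx, hy]
    · simp only [hx, if_false]; split_ifs <;> norm_num
  nonneg' := by intro x; split_ifs <;> norm_num
  le_one' := by intro x; split_ifs <;> norm_num
  leftCont' := by
    intro x _ hx
    have h1 : (fun y : ℝ≥0∞ => if y = ∞ then (1 : ℝ) else 0) =ᶠ[nhdsWithin x (Set.Iio x)] fun _ => 0 := by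
      filter_upwards [self_mem_nhdsWithin] with y hy
      have : y ≠ ∞ := (lt_trans hy hx).ne
      simp [this]
    exact (tendsto_const_nhds.congr' h1.symm).trans (by simp [hx.ne])
  zero' := by simp
  top' := by simp

/-- A triangle function: commutative, associative, nondecreasing in each place,
with identity `eps_0`. -/
structure IsTriangleFunction (τ : DDF → DDF → DDF) : Prop where
  comm : ∀ F G, τ F G = τ G F
  assoc : ∀ F G H, τ (τ F G) H = τ F (τ G H)
  mono : ∀ F F' G G', F ≤ F' → G ≤ G' → τ F G ≤ τ F' G'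
  ident : ∀ F, τ F epsZero = F

/-- The set whose supremum is `tau_M(F, G)(x)`. -/
def tauSet (F G : DDF) (x : ℝ≥0∞) : Set ℝ :=
  {r | ∃ u v : ℝ≥0∞, u + v = x ∧ r = min (F u) (G v)}

theorem tauSet_nonempty (F G : DDF) (x : ℝ≥0∞) : (tauSet F G x).Nonempty :=
  ⟨_, x, 0, by simp, rfl⟩

theorem tauSet_bdd (F G : DDF) (x : ℝ≥0∞) : BddAbove (tauSet F G x) := by
  refine ⟨1, ?_⟩
  rintro r ⟨u, v, -, rfl⟩
  exact (min_le_left _ _).trans (F.le_one' u)

theorem le_tau {F G : DDF} {x u v : ℝ≥0∞} (h : u + v = x) :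
    min (F u) (G v) ≤ sSup (tauSet F G x) :=
  le_csSup (tauSet_bdd F G x) ⟨u, v, h, rfl⟩

theorem tau_le {F G : DDF} {x : ℝ≥0∞} {c : ℝ}
    (h : ∀ u v : ℝ≥0∞, u + v = x → min (F u) (G v) ≤ c) :
    sSup (tauSet F G x) ≤ c := by
  refine csSup_le (tauSet_nonempty F G x) ?_
  rintro r ⟨u, v, huv, rfl⟩
  exact h u v huv

theorem lt_tau {F G : DDF} {x : ℝ≥0∞} {c : ℝ} (h : c < sSup (tauSet F G x)) :
    ∃ u v : ℝ≥0∞, u + v = x ∧ c < F u ∧ c < G v := by
  obtain ⟨r, ⟨u, v, huv, rfl⟩, hr⟩ := exists_lt_of_lt_csSup (tauSet_nonempty F G x) h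
  exact ⟨u, v, huv, lt_min_iff.mp hr⟩

theorem tau_nonneg (F G : DDF) (x : ℝ≥0∞) : 0 ≤ sSup (tauSet F G x) :=
  le_trans (le_min (F.nonneg' x) (G.nonneg' 0)) (le_tau (by simp : x + 0 = x))

theorem tau_le_one (F G : DDF) (x : ℝ≥0∞) : sSup (tauSet F G x) ≤ 1 :=
  tau_le fun u _ _ => (min_le_left _ _).trans (F.le_one' u)

/-- Left-continuity in lower-bound form. -/
theorem exists_lt_of_lt {F : DDF} {x : ℝ≥0∞} {c : ℝ} (hc : 0 ≤ c) (hx : x < ∞) (h : c < F x) :
    ∃ y < x, c < F y := by
  have hx0 : 0 < x := by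
    rcases eq_or_ne x 0 with rfl | h0
    · rw [F.zero'] at h; exact absurd h (not_lt.mpr hc)
    · exact pos_iff_ne_zero.mpr h0
  have hne : (nhdsWithin x (Set.Iio x)).NeBot := nhdsLT_neBot_of_exists_lt ⟨0, hx0⟩
  have h1 := (F.leftCont' x hx0 hx).eventually (lt_mem_nhds h)
  obtain ⟨y, hy1, hy2⟩ := (h1.and self_mem_nhdsWithin).exists
  exact ⟨y, hy2, hy1⟩

theorem tau_mono_aux (F G : DDF) : Monotone fun x => sSup (tauSet F G x) := by
  intro x y hxy
  refine tau_le fun u v huv => ?_
  obtain ⟨w, rfl⟩ := exists_add_of_le hxy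
  refine le_trans ?_ (le_tau (F := F) (G := G) (u := u + w) (v := v) (by rw [← huv]; ring))
  exact min_le_min (F.mono' le_self_add) le_rfl

/-- The triangle function `tau_M`. -/
noncomputable def tauM (F G : DDF) : DDF where
  toFun := fun x => sSup (tauSet F G x)
  mono' := tau_mono_aux F G
  nonneg' := tau_nonneg F G
  le_one' := tau_le_one F G
  leftCont' := by
    intro x hx0 hx
    refine tendsto_order.mpr ⟨?_, ?_⟩
    · intro c hc
      rcases lt_or_ge c 0 with h0 | h0
      · exact Filter.Eventually.of_forall fun y => lt_of_lt_of_le h0 (tau_nonneg F G y)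
      · obtain ⟨u, v, huv, hu, hv⟩ := lt_tau hc
        have hu' : u < ∞ := lt_of_le_of_lt (by rw [← huv]; exact le_self_add) hx
        have hv' : v < ∞ := lt_of_le_of_lt (by rw [← huv]; exact le_add_self) hx
        obtain ⟨u', hu'1, hu'2⟩ := exists_lt_of_lt h0 hu' hu
        have hlt : u' + v < x := by
          rw [← huv]; exact ENNReal.add_lt_add_right hv'.ne hu'1
        filter_upwards [mem_nhdsWithin_of_mem_nhds (lt_mem_nhds hlt)] with y hy
        exact lt_of_lt_of_le (lt_of_lt_of_le (lt_min hu'2 hv) (le_tau rfl))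
          (tau_mono_aux F G (le_of_lt hy))
    · intro c hc
      filter_upwards [self_mem_nhdsWithin] with y hy
      exact lt_of_le_of_lt (tau_mono_aux F G (le_of_lt hy)) hc
  zero' := by
    apply le_antisymm _ (tau_nonneg F G 0)
    refine tau_le fun u v huv => ?_
    have : u = 0 := (add_eq_zero.mp huv).1
    rw [this, F.zero']
    exact min_le_left _ _
  top' := by
    apply le_antisymm (tau_le_one F G _)
    have := le_tau (F := F) (G := G) (u := ∞) (v := ∞) (x := ∞) (by simp)
    rwa [F.top', G.top', min_self] at this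

theorem tauM_apply (F G : DDF) (x : ℝ≥0∞) : tauM F G x = sSup (tauSet F G x) := rfl


theorem tauM_comm (F G : DDF) : tauM F G = tauM G F := by
  ext x
  refine le_antisymm ?_ ?_
  · refine tau_le fun u v huv => ?_
    rw [min_comm]
    exact le_tau (by rw [add_comm]; exact huv)
  · refine tau_le fun u v huv => ?_
    rw [min_comm]
    exact le_tau (by rw [add_comm]; exact huv)

theorem tauM_assoc_le (F G H : DDF) (x : ℝ≥0∞) :
    tauM (tauM F G) H x ≤ tauM F (tauM G H) x := by
  refine tau_le fun u v huv => ?_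
  refine le_of_forall_lt fun c hc => ?_
  obtain ⟨h1, h2⟩ := lt_min_iff.mp hc
  obtain ⟨u1, u2, hu, h3, h4⟩ := lt_tau h1
  refine lt_of_lt_of_le (lt_min h3 (lt_of_lt_of_le (lt_min h4 h2) (le_tau rfl)))
    (le_tau (F := F) (G := tauM G H) (u := u1) (v := u2 + v) ?_)
  rw [← huv, ← hu]; ring

theorem tauM_assoc (F G H : DDF) : tauM (tauM F G) H = tauM F (tauM G H) := by
  ext x
  refine le_antisymm (tauM_assoc_le F G H x) ?_
  rw [tauM_comm F, tauM_comm G H, tauM_comm _ H, tauM_comm F G]
  exact tauM_assoc_le H G F x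

theorem tauM_ident (F : DDF) : tauM F epsZero = F := by
  ext x
  refine le_antisymm ?_ ?_
  · refine tau_le fun u v huv => ?_
    refine (min_le_left _ _).trans (F.mono' ?_)
    rw [← huv]; exact le_self_add
  · rcases eq_or_ne x ∞ with rfl | hx
    · rw [F.top', DDF.top']
    · refine le_of_forall_lt fun c hc => ?_
      rcases lt_or_ge c 0 with h0 | h0
      · exact lt_of_lt_of_le h0 (tau_nonneg _ _ _)
      · obtain ⟨y, hy, hyc⟩ := exists_lt_of_lt h0 (lt_top_iff_ne_top.mpr hx) hc
        have hpos : x - y ≠ 0 := (tsub_pos_of_lt hy).ne'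
        have h1 : epsZero (x - y) = 1 := by simp [epsZero, hpos]
        have h2 := le_tau (F := F) (G := epsZero) (u := y) (v := x - y) (x := x)
          (add_tsub_cancel_of_le hy.le)
        rw [h1, min_eq_left (F.le_one' y)] at h2
        exact lt_of_lt_of_le hyc h2

theorem isTriangleFunction_tauM : IsTriangleFunction tauM where
  comm := tauM_comm
  assoc := tauM_assoc
  mono := by
    intro F F' G G' h1 h2 x
    refine tau_le fun u v huv => ?_
    exact le_trans (min_le_min (h1 u) (h2 v)) (le_tau huv)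
  ident := tauM_ident

/-- The distance distribution function `x ↦ G (x / d)` of a simple space, for a distance
`d` in `[0, infinity]`. In `[0, infinity]` one has `x / 0 = infinity` for `x > 0` and `0 / 0 = 0`,
so `G (x / 0) = 1` for `x > 0` and `G (0 / 0) = 0`. The value at `x = infinity` is `1`,
as for every element of `Delta^+`. -/
noncomputable def scaled (G : DDF) (d : ℝ≥0∞) : DDF where
  toFun := fun x => if x = ∞ then 1 else G (x / d)
  mono' := by
    intro x y h
    by_cases hy : y = ∞
    · simp only [hy, if_true]; split_ifs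
      · exact le_rfl
      · exact G.le_one' _
    · have hx : x ≠ ∞ := fun h' => hy (top_le_iff.mp (h' ▸ h))
      simp only [hx, hy, if_false]
      exact G.mono' (ENNReal.div_le_div_right h d)
  nonneg' := by intro x; split_ifs; · norm_num
                · exact G.nonneg' _
  le_one' := by intro x; split_ifs; · norm_num
                · exact G.le_one' _
  leftCont' := by
    intro x hx0 hx
    have hval : (fun y : ℝ≥0∞ => if y = ∞ then (1 : ℝ) else G (y / d)) =ᶠ[nhdsWithin x (Set.Iio x)]
        fun y => G (y / d) := by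
      filter_upwards [self_mem_nhdsWithin] with y hy
      have : y ≠ ∞ := (lt_trans hy hx).ne
      simp [this]
    have hx' : (if x = ∞ then (1 : ℝ) else G (x / d)) = G (x / d) := by simp [hx.ne]
    refine Filter.Tendsto.congr' hval.symm ?_
    show Filter.Tendsto _ _ (nhds (if x = ∞ then (1 : ℝ) else G (x / d)))
    rw [hx']
    rcases eq_or_ne d 0 with rfl | hd0
    · have h1 : (fun y : ℝ≥0∞ => G (y / 0)) =ᶠ[nhdsWithin x (Set.Iio x)] fun _ => G (x / 0) := by
        filter_upwards [mem_nhdsWithin_of_mem_nhds (lt_mem_nhds hx0)] with y hy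
        rw [ENNReal.div_zero hy.ne', ENNReal.div_zero hx0.ne']
      exact tendsto_const_nhds.congr' h1.symm
    rcases eq_or_ne d ∞ with rfl | hdt
    · simp only [ENNReal.div_top]
      exact tendsto_const_nhds
    · have hpos : 0 < x / d := ENNReal.div_pos hx0.ne' hdt
      have hfin : x / d < ∞ := ENNReal.div_lt_top hx.ne hd0
      have hc := G.leftCont' (x / d) hpos hfin
      refine Filter.Tendsto.comp hc ?_
      refine tendsto_nhdsWithin_iff.mpr ⟨?_, ?_⟩
      · exact (ENNReal.continuous_div_const d hd0).continuousAt.continuousWithinAt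
      · filter_upwards [self_mem_nhdsWithin] with y hy
        exact ENNReal.div_lt_div_right hd0 hdt hy
  zero' := by simp [G.zero']
  top' := by simp

theorem scaled_apply (G : DDF) (d : ℝ≥0∞) {x : ℝ≥0∞} (hx : x ≠ ∞) :
    scaled G d x = G (x / d) := by
  simp [scaled, hx]

/-- PSM spaces. -/
structure IsPSM {S : Type*} (F : S → S → DDF) : Prop where
  self : ∀ p, F p p = epsZero
  ne : ∀ p q, p ≠ q → F p q ≠ epsZero
  symm : ∀ p q, F p q = F q p

/-- PM spaces under `τ`. -/
structure IsPM {S : Type*} (τ : DDF → DDF → DDF) (F : S → S → DDF) : Prop extends IsPSM F where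
  triangle : ∀ p q r, τ (F p q) (F q r) ≤ F p r

/-- The simple space `(S, d, G)`: `F_{pq}(x) = G(x / d(p, q))`; the metric may take the
value infinity. -/
noncomputable def simpleSpace (S : Type*) [EMetricSpace S] (G : DDF) : S → S → DDF :=
  fun p q => scaled G (edist p q)

/-- `τ` is universal for the class of all simple spaces (on carrier types in universe `u`). -/
def UniversalForSimple.{u} (τ : DDF → DDF → DDF) : Prop :=
  ∀ (S : Type u) [EMetricSpace S] (G : DDF), G ≠ epsZero → G ≠ epsTop →
    IsPM τ (simpleSpace S G)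


theorem scaled_zero (G : DDF) : scaled G 0 = epsZero := by
  ext x
  rcases eq_or_ne x ∞ with rfl | hx
  · rw [DDF.top', DDF.top']
  · rw [scaled_apply G 0 hx]
    rcases eq_or_ne x 0 with rfl | h0
    · rw [DDF.zero', ENNReal.zero_div, DDF.zero']
    · rw [ENNReal.div_zero h0, DDF.top']; simp [epsZero, h0]

theorem scaled_ne_epsZero {G : DDF} (hG : G ≠ epsZero) {d : ℝ≥0∞} (hd : d ≠ 0) :
    scaled G d ≠ epsZero := by
  intro h
  have h' : ∀ x, scaled G d x = epsZero x := fun x => by rw [h]
  rcases eq_or_ne d ∞ with rfl | hdt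
  · have h1 := h' 1
    rw [scaled_apply G _ (by simp), ENNReal.div_top, G.zero'] at h1
    simp [epsZero] at h1
  · apply hG
    ext x
    rcases eq_or_ne x ∞ with rfl | hx
    · rw [DDF.top', DDF.top']
    · have h1 := h' (x * d)
      rw [scaled_apply G _ (ENNReal.mul_ne_top hx hdt), ENNReal.mul_div_cancel_right hd hdt] at h1
      rw [h1]
      simp [epsZero, hd]

theorem isPSM_simpleSpace (S : Type*) [EMetricSpace S] {G : DDF} (hG : G ≠ epsZero) :
    IsPSM (simpleSpace S G) where
  self := by
    intro p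
    simp only [simpleSpace, edist_self]
    exact scaled_zero G
  ne := by
    intro p q hpq
    exact scaled_ne_epsZero hG (by simpa [edist_eq_zero] using hpq)
  symm := by
    intro p q
    simp only [simpleSpace, edist_comm]

/-- Key inequality for universality of `tau_M`. -/
theorem div_le_or {a b c u v : ℝ≥0∞} (hc : c ≤ a + b) (hu : u ≠ ∞) (hv : v ≠ ∞) :
    u / a ≤ (u + v) / c ∨ v / b ≤ (u + v) / c := by
  by_contra hcon
  push Not at hcon
  obtain ⟨h1, h2⟩ := hcon
  have hx : u + v ≠ ∞ := ENNReal.add_ne_top.mpr ⟨hu, hv⟩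
  rcases eq_or_ne c 0 with rfl | hc0
  · rcases eq_or_ne (u + v) 0 with h0 | h0
    · have hu0 : u = 0 := (add_eq_zero.mp h0).1
      rw [hu0] at h1
      simp at h1
    · rw [ENNReal.div_zero h0] at h1
      exact absurd h1 not_top_lt
  rcases eq_or_ne c ∞ with rfl | hct
  · have hab : a = ∞ ∨ b = ∞ := by
      by_contra hne
      push Not at hne
      exact ENNReal.add_ne_top.mpr hne (top_le_iff.mp hc)
    rcases hab with rfl | rfl
    · simp at h1
    · simp at h2
  · set t := (u + v) / c with ht
    have htt : t ≠ ∞ := (ENNReal.div_lt_top hx hc0).ne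
    have h1' : t * a ≤ u := ENNReal.mul_le_of_le_div h1.le
    have h2' : t * b ≤ v := ENNReal.mul_le_of_le_div h2.le
    have h3 : t * c = u + v := ENNReal.div_mul_cancel hc0 hct
    have h4 : t * c ≤ t * (a + b) := mul_le_mul_right hc t
    -- equality must hold throughout
    have h5 : t * a + t * b ≤ u + v := add_le_add h1' h2'
    rw [mul_add, h3] at h4
    have h6 : u + v = t * a + t * b := le_antisymm h4 h5
    have hta : t * a = u := by
      refine le_antisymm h1' ?_
      by_contra hlt
      push Not at hlt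
      have : t * a + t * b < u + v := ENNReal.add_lt_add_of_lt_of_le
        (ne_top_of_le_ne_top hv h2') hlt h2'
      rw [h6] at this
      exact lt_irrefl _ this
    have hle : u / a ≤ t := by
      rw [← hta]
      exact ENNReal.div_le_of_le_mul le_rfl
    exact absurd h1 (not_lt.mpr hle)

theorem universal_tauM.{u} : UniversalForSimple.{u} tauM := by
  intro S _ G hG _
  refine ⟨isPSM_simpleSpace S hG, ?_⟩
  intro p q r x
  rcases eq_or_ne x ∞ with rfl | hx
  · rw [DDF.top', DDF.top']
  refine tau_le fun u v huv => ?_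
  have hu : u ≠ ∞ := by
    rintro rfl; simp at huv; exact hx huv.symm
  have hv : v ≠ ∞ := by
    rintro rfl; simp at huv; exact hx huv.symm
  simp only [simpleSpace]
  rw [scaled_apply _ _ hu, scaled_apply _ _ hv, scaled_apply _ _ hx]
  rcases div_le_or (edist_triangle p q r) hu hv with h | h
  · exact (min_le_left _ _).trans (G.mono' (huv ▸ h))
  · exact (min_le_right _ _).trans (G.mono' (huv ▸ h))


theorem le_epsZero (F : DDF) : F ≤ epsZero := by
  intro x
  rcases eq_or_ne x 0 with rfl | h0
  · rw [DDF.zero', DDF.zero']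
  · have : epsZero x = 1 := by simp [epsZero, h0]
    rw [this]; exact F.le_one' x

theorem epsTop_le (F : DDF) : epsTop ≤ F := by
  intro x
  rcases eq_or_ne x ∞ with rfl | h0
  · rw [DDF.top', DDF.top']
  · have : epsTop x = 0 := by simp [epsTop, h0]
    rw [this]; exact F.nonneg' x

/-- Left-continuity in upper-bound form. -/
theorem le_of_forall_lt_le {F : DDF} {x : ℝ≥0∞} {m : ℝ} (hm : 0 ≤ m) (hx : x < ∞)
    (h : ∀ y < x, F y ≤ m) : F x ≤ m := by
  by_contra hcon
  push Not at hcon
  obtain ⟨y, hy, hym⟩ := exists_lt_of_lt hm hx hcon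
  exact absurd (h y hy) (not_le.mpr hym)

/-- The splitting point. -/
theorem exists_split (F G : DDF) {x : ℝ≥0∞} (hx : x ≠ ∞) :
    ∃ u v : ℝ≥0∞, u + v = x ∧ F u ≤ tauM F G x ∧ G v ≤ tauM F G x := by
  set m := tauM F G x with hm
  have hm0 : 0 ≤ m := tau_nonneg F G x
  set s : Set ℝ≥0∞ := {u | u ≤ x ∧ F u ≤ m} with hs
  set u0 := sSup s with hu0
  have h0s : (0 : ℝ≥0∞) ∈ s := ⟨bot_le, by rw [F.zero']; exact hm0⟩
  have hu0x : u0 ≤ x := sSup_le fun u hu => hu.1
  have hu0t : u0 < ∞ := lt_of_le_of_lt hu0x (lt_top_iff_ne_top.mpr hx)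
  refine ⟨u0, x - u0, add_tsub_cancel_of_le hu0x, ?_, ?_⟩
  · refine le_of_forall_lt_le hm0 hu0t fun y hy => ?_
    obtain ⟨u, hu, hyu⟩ := lt_sSup_iff.mp hy
    exact (F.mono' hyu.le).trans hu.2
  · refine le_of_forall_lt_le hm0 (lt_of_le_of_lt tsub_le_self (lt_top_iff_ne_top.mpr hx))
      fun v hv => ?_
    have hvx : v ≤ x := hv.le.trans tsub_le_self
    have h1 : v + u0 < x := lt_tsub_iff_right.mp hv
    have h2 : u0 < x - v := lt_tsub_iff_left.mpr h1
    have h3 : m < F (x - v) := by
      by_contra hcon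
      push Not at hcon
      exact absurd (le_sSup (show x - v ∈ s from ⟨tsub_le_self, hcon⟩)) (not_le.mpr h2)
    have h4 := le_tau (F := F) (G := G) (u := x - v) (v := v) (x := x) (tsub_add_cancel_of_le hvx)
    rw [← tauM_apply, ← hm] at h4
    rcases min_le_iff.mp h4 with h5 | h5
    · exact absurd h5 (not_le.mpr h3)
    · exact h5

/-- The auxiliary distribution function `t ↦ max (F (a t)) (G (b t))`. -/
noncomputable def blend (F G : DDF) (a b : ℝ≥0∞) (ha : a ≠ 0) (ha' : a ≠ ∞) (hb : b ≠ 0)
    (hb' : b ≠ ∞) : DDF where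
  toFun := fun t => max (F (a * t)) (G (b * t))
  mono' := by
    intro s t h
    exact max_le_max (F.mono' (mul_le_mul_right h a)) (G.mono' (mul_le_mul_right h b))
  nonneg' := fun t => (F.nonneg' _).trans (le_max_left _ _)
  le_one' := fun t => max_le (F.le_one' _) (G.le_one' _)
  leftCont' := by
    intro t ht0 ht
    have key : ∀ (K : DDF) (c : ℝ≥0∞), c ≠ 0 → c ≠ ∞ →
        Filter.Tendsto (fun y => K (c * y)) (nhdsWithin t (Set.Iio t)) (nhds (K (c * t))) := by
      intro K c hc hc'
      have h1 := K.leftCont' (c * t) (pos_iff_ne_zero.mpr (mul_ne_zero hc ht0.ne'))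
        (ENNReal.mul_lt_top (lt_top_iff_ne_top.mpr hc') ht)
      refine Filter.Tendsto.comp h1 ?_
      refine tendsto_nhdsWithin_iff.mpr ⟨?_, ?_⟩
      · exact (ENNReal.continuous_const_mul hc').continuousAt.continuousWithinAt
      · filter_upwards [self_mem_nhdsWithin] with y hy
        exact (ENNReal.mul_lt_mul_iff_right hc hc').mpr hy
    exact (key F a ha ha').max (key G b hb hb')
  zero' := by simp [DDF.zero']
  top' := by
    rw [ENNReal.mul_top ha, ENNReal.mul_top hb, F.top', G.top', max_self]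

theorem le_scaled_left (F G : DDF) (a b : ℝ≥0∞) (ha : a ≠ 0) (ha' : a ≠ ∞) (hb : b ≠ 0)
    (hb' : b ≠ ∞) : F ≤ scaled (blend F G a b ha ha' hb hb') a := by
  intro x
  rcases eq_or_ne x ∞ with rfl | hx
  · rw [DDF.top', DDF.top']
  · rw [scaled_apply _ _ hx]
    refine le_trans (le_of_eq ?_) (le_max_left _ _)
    rw [ENNReal.mul_div_cancel ha ha']

theorem le_scaled_right (F G : DDF) (a b : ℝ≥0∞) (ha : a ≠ 0) (ha' : a ≠ ∞) (hb : b ≠ 0)
    (hb' : b ≠ ∞) : G ≤ scaled (blend F G a b ha ha' hb hb') b := by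
  intro x
  rcases eq_or_ne x ∞ with rfl | hx
  · rw [DDF.top', DDF.top']
  · rw [scaled_apply _ _ hx]
    refine le_trans (le_of_eq ?_) (le_max_right _ _)
    rw [ENNReal.mul_div_cancel hb hb']

/-- Universality applied to three collinear points of the line at distances `a`, `b`, `a + b`. -/
theorem universal_line.{u} {τ : DDF → DDF → DDF} (hτ : UniversalForSimple.{u} τ) {H : DDF}
    (h0 : H ≠ epsZero) (h1 : H ≠ epsTop) {a b : ℝ≥0∞} (ha : a ≠ ∞) (hb : b ≠ ∞) :
    τ (scaled H a) (scaled H b) ≤ scaled H (a + b) := by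
  have h := (hτ (ULift.{u} ℝ) H h0 h1).triangle (ULift.up 0) (ULift.up a.toReal)
    (ULift.up (a.toReal + b.toReal))
  have e1 : edist (ULift.up.{u} (0 : ℝ)) (ULift.up a.toReal) = a := by
    rw [ULift.edist_up_up, edist_dist, Real.dist_eq, zero_sub, abs_neg,
      abs_of_nonneg ENNReal.toReal_nonneg, ENNReal.ofReal_toReal ha]
  have e2 : edist (ULift.up.{u} a.toReal) (ULift.up (a.toReal + b.toReal)) = b := by
    rw [ULift.edist_up_up, edist_dist, Real.dist_eq, sub_add_cancel_left, abs_neg,
      abs_of_nonneg ENNReal.toReal_nonneg, ENNReal.ofReal_toReal hb]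
  have e3 : edist (ULift.up.{u} (0 : ℝ)) (ULift.up (a.toReal + b.toReal)) = a + b := by
    rw [ULift.edist_up_up, edist_dist, Real.dist_eq, zero_sub, abs_neg,
      abs_of_nonneg (add_nonneg ENNReal.toReal_nonneg ENNReal.toReal_nonneg),
      ENNReal.ofReal_add ENNReal.toReal_nonneg ENNReal.toReal_nonneg,
      ENNReal.ofReal_toReal ha, ENNReal.ofReal_toReal hb]
  simp only [simpleSpace, e1, e2, e3] at h
  exact h

theorem le_tauM_of_universal.{u} {τ : DDF → DDF → DDF} (hT : IsTriangleFunction τ)
    (hτ : UniversalForSimple.{u} τ) (F G : DDF) : τ F G ≤ tauM F G := by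
  intro x
  have idl : ∀ K, τ epsZero K = K := fun K => by rw [hT.comm, hT.ident]
  have hleF : τ F G ≤ F := by
    have := hT.mono F F G epsZero (fun _ => le_rfl) (le_epsZero G)
    rwa [hT.ident] at this
  have hleG : τ F G ≤ G := by
    have := hT.mono F epsZero G G (le_epsZero F) (fun _ => le_rfl)
    rwa [idl] at this
  rcases eq_or_ne x ∞ with rfl | hx
  · rw [DDF.top', DDF.top']
  obtain ⟨a, b, hab, hFa, hGb⟩ := exists_split F G hx
  rcases eq_or_ne a 0 with rfl | ha
  · rw [zero_add] at hab
    subst hab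
    exact (hleG b).trans hGb
  rcases eq_or_ne b 0 with rfl | hb
  · rw [add_zero] at hab
    subst hab
    exact (hleF a).trans hFa
  have ha' : a ≠ ∞ := by rintro rfl; simp at hab; exact hx hab.symm
  have hb' : b ≠ ∞ := by rintro rfl; simp at hab; exact hx hab.symm
  set H := blend F G a b ha ha' hb hb' with hH
  have hH1 : H 1 ≤ tauM F G x := by
    show max (F (a * 1)) (G (b * 1)) ≤ _
    rw [mul_one, mul_one]
    exact max_le hFa hGb
  rcases lt_or_ge (tauM F G x) 1 with hlt | hge
  · have hH0 : H ≠ epsZero := by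
      intro h
      rw [h] at hH1
      have : epsZero 1 = 1 := by simp [epsZero]
      rw [this] at hH1
      exact absurd hH1 (not_le.mpr hlt)
    have hF := le_scaled_left F G a b ha ha' hb hb'
    have hG := le_scaled_right F G a b ha ha' hb hb'
    rw [← hH] at hF hG
    by_cases hHt : H = epsTop
    · have h1 := hF x
      rw [scaled_apply _ _ hx, hHt] at h1
      have h2 : epsTop (x / a) = 0 := by
        have : x / a ≠ ∞ := (ENNReal.div_lt_top hx ha).ne
        simp [epsTop, this]
      rw [h2] at h1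
      exact ((hleF x).trans h1).trans (tau_nonneg F G x)
    · have h1 := hT.mono _ _ _ _ hF hG x
      have h2 := universal_line hτ hH0 hHt ha' hb' x
      rw [scaled_apply _ _ hx, hab, ENNReal.div_self (by
        rw [← hab]; simp [ha]) hx] at h2
      exact (h1.trans h2).trans hH1
  · exact ((τ F G).le_one' x).trans hge

/-- `tau_M` is the strongest triangle function universal for the class of all simple spaces:
it is a triangle function, it is universal, and every universal triangle function is
pointwise at most `tau_M`. -/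
theorem result.{u} :
    IsTriangleFunction tauM ∧ UniversalForSimple.{u} tauM ∧
      ∀ τ : DDF → DDF → DDF, IsTriangleFunction τ → UniversalForSimple.{u} τ →
        ∀ F G : DDF, ∀ x : ℝ≥0∞, τ F G x ≤ tauM F G x :=
  ⟨isTriangleFunction_tauM, universal_tauM, fun _ hT hτ F G => le_tauM_of_universal hT hτ F G⟩

end Pool.Agent.Results.MP_6d1e65_an.TauMStrongest
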